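import Pool.Agent.Y320.ST.Stm
import Pool.Agent.Helper171.NHM.PartD
import Pool.Agent.Helper171.NHM.PartE

/-!
Project ST, job DIFF: planar weakly quasisymmetric maps are differentiable almost everywhere, and
their Jacobian has a constant sign. Adapted from `Pool/Agent/Helper171/NHM/PartD.lean`.
-/

set_option autoImplicit false
open MeasureTheory Filter Topology Set Metric
open scoped ENNReal NNReal RealInnerProductSpace ContDiff

namespace Pool.Agent.Y914.ST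

open Pool.Agent.Helper80.NHM Pool.Agent.Helper171.NHMD

/-- the regularity theorem with the classical derivative -/
theorem partD' {n : ℕ} (hn : 2 ≤ n) (C : ℝ) : ∃ K : ℝ, 1 ≤ K ∧
    ∀ (G : Set (Sp n)) (f : Sp n → Sp n), IsOpen G → ContinuousOn f G → LocFin G f →
    (∀ (x : Sp n) (r : ℝ), 0 < r → closedBall x (3 * r) ⊆ G → ∀ z ∈ closedBall x r,
      dist (f z) (f x) ^ n ≤ C * (volume (f '' closedBall x (2 * r))).toReal) →
    (∀ᵐ x ∂(volume.restrict G), DifferentiableAt ℝ f x) ∧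
      IsWeakDeriv G f (fun x => fderiv ℝ f x) ∧
      ∀ᵐ x ∂(volume.restrict G), ‖fderiv ℝ f x‖ ^ n ≤ K * |(fderiv ℝ f x).det| := by
  obtain ⟨K0, hK0, hdist⟩ := distortion_pt (n := n) (by omega) (C := C)
  refine ⟨K0, hK0, fun G f hG hf hfin hC => ?_⟩
  have hn0 : 0 < n := by omega
  -- local data
  have hloc : ∀ x₀ ∈ G, ∃ (U : Set (Sp n)) (N : ℕ), IsOpen U ∧ x₀ ∈ U ∧ U ⊆ G ∧
      Bornology.IsBounded (f '' U) ∧ ∀ b, (U ∩ f ⁻¹' {b}).encard ≤ N := by
    intro x₀ hx₀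
    obtain ⟨U, s, N, hxU, hU, hN⟩ := hfin x₀ hx₀
    refine ⟨U, N, hU.isOpen, hxU, subset_closure.trans hU.sub, ?_, hN⟩
    refine (isBounded_ball (x := f x₀) (r := s)).subset ?_
    rintro _ ⟨z, hz, rfl⟩
    exact hU.maps z hz
  have hVU : ∀ U : Set (Sp n), U ⊆ G → ∀ (x : Sp n) (r : ℝ), 0 < r → closedBall x (3 * r) ⊆ U →
      ∀ z ∈ closedBall x r,
        dist (f z) (f x) ^ n ≤ C * (volume (f '' closedBall x (2 * r))).toReal :=
    fun U hUG x r hr hx => hC x r hr (hx.trans hUG)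
  -- pointwise Lipschitz a.e.
  have hlip : ∀ᵐ x ∂(volume.restrict G), ∃ C' r : ℝ, 0 < r ∧
      ∀ y ∈ ball x r, ‖f y - f x‖ ≤ C' * ‖y - x‖ := by
    refine ae_of_local fun x₀ hx₀ => ?_
    obtain ⟨U, N, hU, hxU, hUG, hb, hN⟩ := hloc x₀ hx₀
    exact ⟨U, hU, hxU, lip_ae hn0 hU (hf.mono hUG) hb hN (hVU U hUG)⟩
  -- differentiable a.e.
  have hdiff : ∀ᵐ x ∂(volume.restrict G), DifferentiableAt ℝ f x := by
    have h1 : ∀ i : Fin n, ∀ᵐ x ∂(volume.restrict G), (∃ C r : ℝ, 0 < r ∧ ∀ y ∈ ball x r,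
        |f y i - f x i| ≤ C * ‖y - x‖) → DifferentiableAt ℝ (fun z => f z i) x :=
      fun i => ae_restrict_of_ae (stepanov (volume : Measure (Sp n)) (fun z => f z i))
    filter_upwards [hlip, ae_all_iff.2 h1] with x hx1 hx2
    rw [differentiableAt_euclidean]
    intro i
    refine hx2 i ?_
    obtain ⟨C', r, hr, hx⟩ := hx1
    exact ⟨C', r, hr, fun y hy => (norm_coord_le (f y - f x) i).trans (hx y hy)⟩
  -- difference quotients
  have hquot : ∀ K ⊆ G, IsCompact K → ∃ C' δ : ℝ, 0 < δ ∧ ∀ h : Sp n, ‖h‖ < δ →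
      ∫⁻ x in K, ENNReal.ofReal (‖f (x + h) - f x‖ ^ n) ≤ ENNReal.ofReal (C' * ‖h‖ ^ n) := by
    intro K hKG hK
    have hx : ∀ x ∈ K, ∃ (r C' δ : ℝ), 0 < r ∧ 0 < δ ∧ 0 ≤ C' ∧ ∀ h : Sp n, ‖h‖ < δ →
        ∫⁻ z in closedBall x r, ENNReal.ofReal (‖f (z + h) - f z‖ ^ n) ≤
          ENNReal.ofReal (C' * ‖h‖ ^ n) := by
      intro x hx
      obtain ⟨U, N, hU, hxU, hUG, hb, hN⟩ := hloc x (hKG hx)
      obtain ⟨r, hr, hrU⟩ := (nhds_basis_closedBall.mem_iff).1 (hU.mem_nhds hxU)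
      obtain ⟨C', δ, hδ, h1⟩ := diff_quot hn0 hU (hf.mono hUG) hb hN (hVU U hUG)
        (isCompact_closedBall x r) hrU
      refine ⟨r, max C' 0, δ, hr, hδ, le_max_right _ _, fun h hh => (h1 h hh).trans ?_⟩
      exact ENNReal.ofReal_le_ofReal (mul_le_mul_of_nonneg_right (le_max_left _ _) (by positivity))
    choose! r Cx δ hr hδ hCx hq using hx
    obtain ⟨t, htK, ht⟩ := hK.elim_nhds_subcover (fun x => closedBall x (r x))
      (fun x hx => closedBall_mem_nhds x (hr x hx))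
    by_cases hte : t.Nonempty
    · obtain ⟨x1, hx1, hx1m⟩ := t.exists_min_image δ hte
      refine ⟨∑ x ∈ t, Cx x, δ x1, hδ x1 (htK x1 hx1), fun h hh => ?_⟩
      calc ∫⁻ x in K, ENNReal.ofReal (‖f (x + h) - f x‖ ^ n)
          ≤ ∫⁻ x in ⋃ z ∈ t, closedBall z (r z), ENNReal.ofReal (‖f (x + h) - f x‖ ^ n) :=
            lintegral_mono_set ht
        _ ≤ ∑ z ∈ t, ∫⁻ x in closedBall z (r z), ENNReal.ofReal (‖f (x + h) - f x‖ ^ n) := by
            rw [← Finset.sum_coe_sort]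
            refine (lintegral_mono' (Measure.restrict_mono ?_ le_rfl) le_rfl).trans
              ((lintegral_iUnion_le (fun z : t => closedBall (z : Sp n) (r z)) _).trans ?_)
            · intro y hy
              simp only [mem_iUnion] at hy ⊢
              obtain ⟨z, hz, hy⟩ := hy
              exact ⟨⟨z, hz⟩, hy⟩
            · rw [tsum_fintype]
        _ ≤ ∑ z ∈ t, ENNReal.ofReal (Cx z * ‖h‖ ^ n) :=
            Finset.sum_le_sum fun z hz => hq z (htK z hz) h (hh.trans_le (hx1m z hz))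
        _ = ENNReal.ofReal ((∑ x ∈ t, Cx x) * ‖h‖ ^ n) := by
            rw [Finset.sum_mul, ENNReal.ofReal_sum_of_nonneg]
            intro z hz
            exact mul_nonneg (hCx z (htK z hz)) (by positivity)
    · rw [Finset.not_nonempty_iff_eq_empty] at hte
      have hK0 : K = ∅ := by
        rw [hte] at ht
        simpa using ht
      refine ⟨0, 1, one_pos, fun h _ => ?_⟩
      rw [hK0]
      simp
  refine ⟨hdiff, fun i => ?_, ?_⟩
  · have hw : IsWeakGrad G (fun x => f x i) (gradient (fun x => f x i)) := by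
      refine weak_of_diff_quot hn hG ?_ ?_ ?_
      · exact (EuclideanSpace.proj (𝕜 := ℝ) i).continuous.comp_continuousOn hf
      · filter_upwards [hdiff] with x hx
        exact (differentiableAt_euclidean.1 hx) i
      · intro K hKG hK
        obtain ⟨C', δ, hδ, h1⟩ := hquot K hKG hK
        refine ⟨C', δ, hδ, fun h hh => le_trans (lintegral_mono fun x => ?_) (h1 h hh)⟩
        refine ENNReal.ofReal_le_ofReal (pow_le_pow_left₀ (abs_nonneg _) ?_ _)
        exact norm_coord_le (f (x + h) - f x) i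
    refine IsWeakGrad_congr hG hw ?_
    filter_upwards [hdiff] with x hx
    refine ext_inner_right ℝ fun v => ?_
    rw [ContinuousLinearMap.adjoint_inner_left]
    have h1 : HasFDerivAt (fun z => f z i)
        ((EuclideanSpace.proj (𝕜 := ℝ) i).comp (fderiv ℝ f x)) x :=
      (EuclideanSpace.proj (𝕜 := ℝ) i).hasFDerivAt.comp x hx.hasFDerivAt
    rw [gradient, h1.fderiv]
    simp [EuclideanSpace.inner_single_left]
  · filter_upwards [hdiff, ae_restrict_mem hG.measurableSet] with x hx hxG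
    obtain ⟨ρ, hρ, hρG⟩ := (nhds_basis_closedBall.mem_iff).1 (hG.mem_nhds hxG)
    refine hdist f x (ρ / 3) (by positivity) hx fun r hr hrρ => hC x r hr ?_
    exact (closedBall_subset_closedBall (by linarith)).trans hρG


/-! ### Conjugation -/

/-- the isometry between the plane and `ℂ` -/
noncomputable def ei : ℂ ≃ₗᵢ[ℝ] Sp 2 := Complex.orthonormalBasisOneI.repr

/-- the conjugate homeomorphism -/
noncomputable def cj (u : ℂ ≃ₜ ℂ) : Sp 2 ≃ₜ Sp 2 :=
  (ei.symm.toHomeomorph.trans u).trans ei.toHomeomorph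

lemma cj_apply (u : ℂ ≃ₜ ℂ) (x : Sp 2) : cj u x = ei (u (ei.symm x)) := rfl

lemma H_one {H : ℝ} {u : ℂ ≃ₜ ℂ} (h : Pool.Agent.Y320.ST.WQS H u) : 1 ≤ H := by
  have h1 := h 0 1 1 (by
    have : (0 : ℝ) ≤ dist (0 : ℂ) 1 := dist_nonneg
    linarith)
  have h2 : 0 < dist (u 0) (u 1) := dist_pos.2 fun h3 => zero_ne_one (u.injective h3)
  by_contra hcon
  push Not at hcon
  nlinarith

/-- the constant of the volume bound -/
noncomputable def CC (H : ℝ) : ℝ := H ^ 2 / (volume (ball (0 : Sp 2) 1)).toReal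

lemma vol_bound {H : ℝ} {u : ℂ ≃ₜ ℂ} (h : Pool.Agent.Y320.ST.WQS H u) (x : Sp 2) (r : ℝ)
    (hr : 0 < r) (z : Sp 2) (hz : z ∈ closedBall x r) :
    dist (cj u z) (cj u x) ^ 2 ≤ CC H * (volume (cj u '' closedBall x (2 * r))).toReal := by
  have hH : 1 ≤ H := H_one h
  have hc0 : 0 < (volume (ball (0 : Sp 2) 1)).toReal :=
    ENNReal.toReal_pos (measure_ball_pos _ _ one_pos).ne' measure_ball_lt_top.ne
  rcases eq_or_ne z x with rfl | hzx
  · rw [dist_self]
    have h0 : 0 ≤ CC H := by unfold CC; positivity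
    rw [zero_pow two_ne_zero]
    exact mul_nonneg h0 ENNReal.toReal_nonneg
  have hd : 0 < dist (cj u z) (cj u x) := dist_pos.2 fun h3 => hzx ((cj u).injective h3)
  set ρ : ℝ := dist (cj u z) (cj u x) / H with hρ
  have hρ0 : 0 < ρ := by positivity
  have hsub : ball (cj u x) ρ ⊆ cj u '' closedBall x (2 * r) := by
    intro w hw
    obtain ⟨y, rfl⟩ := (cj u).surjective w
    refine ⟨y, ?_, rfl⟩
    by_contra hy
    rw [mem_closedBall, not_le] at hy
    rw [mem_closedBall] at hz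
    have h1 := h (ei.symm x) (ei.symm z) (ei.symm y) (by
      rw [ei.symm.dist_map, ei.symm.dist_map, dist_comm x z, dist_comm x y]
      linarith)
    have h2 : dist (u (ei.symm x)) (u (ei.symm z)) = dist (cj u z) (cj u x) := by
      rw [cj_apply, cj_apply, ei.dist_map, dist_comm]
    have h3 : dist (u (ei.symm x)) (u (ei.symm y)) = dist (cj u y) (cj u x) := by
      rw [cj_apply, cj_apply, ei.dist_map, dist_comm]
    rw [h2, h3] at h1
    rw [mem_ball, hρ, lt_div_iff₀ (by linarith)] at hw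
    linarith
  have hcpt : IsCompact (cj u '' closedBall x (2 * r)) :=
    (isCompact_closedBall x (2 * r)).image (cj u).continuous
  have h1 : (volume (ball (cj u x) ρ)).toReal ≤ (volume (cj u '' closedBall x (2 * r))).toReal :=
    ENNReal.toReal_mono hcpt.measure_lt_top.ne (measure_mono hsub)
  have h2 : (volume (ball (cj u x) ρ)).toReal = ρ ^ 2 * (volume (ball (0 : Sp 2) 1)).toReal := by
    rw [Measure.addHaar_ball_of_pos _ _ hρ0, ENNReal.toReal_mul, finrank_euclideanSpace_fin,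
      ENNReal.toReal_ofReal (by positivity)]
  rw [h2] at h1
  have h3 : dist (cj u z) (cj u x) ^ 2 = H ^ 2 * ρ ^ 2 := by
    rw [hρ]
    field_simp
  rw [h3]
  unfold CC
  rw [div_mul_eq_mul_div, le_div_iff₀ hc0, mul_assoc]
  exact mul_le_mul_of_nonneg_left h1 (by positivity)

lemma A1 (v : Sp 2 ≃ₜ Sp 2) (x₀ : Sp 2) : IsCompact (v ⁻¹' closedBall (v x₀) 1) := by
  have h1 : v ⁻¹' closedBall (v x₀) 1 = v.symm '' closedBall (v x₀) 1 :=
    (v.toEquiv.image_symm_eq_preimage _).symm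
  rw [h1]
  exact (isCompact_closedBall _ _).image v.symm.continuous

lemma A2 (v : Sp 2 ≃ₜ Sp 2) (x₀ : Sp 2) : closure (v ⁻¹' ball (v x₀) 1) ⊆ v ⁻¹' closedBall (v x₀) 1 :=
    closure_minimal (preimage_mono ball_subset_closedBall)
      (isClosed_closedBall.preimage v.continuous)

lemma A3 (v : Sp 2 ≃ₜ Sp 2) (x₀ : Sp 2) : IsOpen (v ⁻¹' ball (v x₀) 1) :=
  isOpen_ball.preimage v.continuous

lemma A4 (v : Sp 2 ≃ₜ Sp 2) (x₀ : Sp 2) (x : Sp 2) (hx : x ∈ frontier (v ⁻¹' ball (v x₀) 1)) :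
    v x ∉ ball (v x₀) 1 := by
  intro h
  rw [frontier, (A3 v x₀).interior_eq] at hx
  exact hx.2 h

lemma A5 (v : Sp 2 ≃ₜ Sp 2) (x₀ : Sp 2) (b : Sp 2) :
    (v ⁻¹' ball (v x₀) 1 ∩ v ⁻¹' {b}).encard ≤ 1 := by
  refine Set.encard_le_one_iff.2 fun a c ha hc => ?_
  have h3 : v a = b := ha.2
  have h4 : v c = b := hc.2
  exact v.injective (h3.trans h4.symm)

lemma A6 (v : Sp 2 ≃ₜ Sp 2) (x₀ : Sp 2) :
    Normal univ v (v ⁻¹' ball (v x₀) 1) (v x₀) 1 where
  spos := one_pos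
  isOpen := A3 v x₀
  compact := IsCompact.of_isClosed_subset (A1 v x₀) isClosed_closure (A2 v x₀)
  sub := subset_univ _
  maps := fun _ hx => hx
  bdry := A4 v x₀

lemma A7 (v : Sp 2 ≃ₜ Sp 2) (x₀ : Sp 2) (b : Sp 2) :
    (v ⁻¹' ball (v x₀) 1 ∩ v ⁻¹' {b}).encard ≤ ((1 : ℕ) : ℕ∞) := by
  rw [Nat.cast_one]
  exact A5 v x₀ b

lemma A8 (v : Sp 2 ≃ₜ Sp 2) : LocFin univ v := by
  intro x₀ _
  have h0 : x₀ ∈ v ⁻¹' ball (v x₀) 1 := by
    rw [mem_preimage]
    exact mem_ball_self one_pos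
  exact ⟨v ⁻¹' ball (v x₀) 1, 1, 1, h0, A6 v x₀, A7 v x₀⟩

lemma locFin (u : ℂ ≃ₜ ℂ) : LocFin univ (cj u) := A8 (cj u)

lemma openMap (u : ℂ ≃ₜ ℂ) : IsOpenMapOn univ (cj u) := fun _ _ hV => (cj u).isOpenMap _ hV

/-- derivatives -/
lemma fderiv_cj (u : ℂ ≃ₜ ℂ) (z : ℂ) (h : DifferentiableAt ℝ (cj u) (ei z)) :
    HasFDerivAt u (((ei.symm.toContinuousLinearEquiv : Sp 2 →L[ℝ] ℂ).comp
      (fderiv ℝ (cj u) (ei z))).comp (ei.toContinuousLinearEquiv : ℂ →L[ℝ] Sp 2)) z := by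
  have h1 : HasFDerivAt (fun w : ℂ => ei w) (ei.toContinuousLinearEquiv : ℂ →L[ℝ] Sp 2) z :=
    ei.toContinuousLinearEquiv.hasFDerivAt
  have h2 : HasFDerivAt (fun w : Sp 2 => ei.symm w)
      (ei.symm.toContinuousLinearEquiv : Sp 2 →L[ℝ] ℂ) (cj u (ei z)) :=
    ei.symm.toContinuousLinearEquiv.hasFDerivAt
  have h3 := (h2.comp (ei z) h.hasFDerivAt).comp z h1
  have h4 : ((fun w : Sp 2 => ei.symm w) ∘ cj u) ∘ (fun w : ℂ => ei w) = u := by
    funext w
    show ei.symm (cj u (ei w)) = u w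
    rw [cj_apply, ei.symm_apply_apply, ei.symm_apply_apply]
  rw [h4] at h3
  exact h3

lemma det_cj (T : Sp 2 →L[ℝ] Sp 2) :
    (((ei.symm.toContinuousLinearEquiv : Sp 2 →L[ℝ] ℂ).comp T).comp
      (ei.toContinuousLinearEquiv : ℂ →L[ℝ] Sp 2)).det = T.det := by
  have := LinearMap.det_conj (T : Sp 2 →ₗ[ℝ] Sp 2) ei.symm.toLinearEquiv
  exact this

lemma norm_cj (T : Sp 2 →L[ℝ] Sp 2) :
    ‖((ei.symm.toContinuousLinearEquiv : Sp 2 →L[ℝ] ℂ).comp T).comp
      (ei.toContinuousLinearEquiv : ℂ →L[ℝ] Sp 2)‖ ≤ ‖T‖ := by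
  refine ContinuousLinearMap.opNorm_le_bound _ (norm_nonneg _) fun z => ?_
  show ‖ei.symm (T (ei z))‖ ≤ ‖T‖ * ‖z‖
  rw [ei.symm.norm_map, ← ei.norm_map z]
  exact T.le_opNorm _

lemma ae_cj {p : Sp 2 → Prop} (h : ∀ᵐ x : Sp 2, p x) : ∀ᵐ z : ℂ, p (ei z) :=
  (ei.measurePreserving).quasiMeasurePreserving.ae h

theorem t_DIFF : Pool.Agent.Y320.ST.S_DIFF := by
  intro H
  obtain ⟨K, hK, hD⟩ := partD' (n := 2) le_rfl (CC H)
  refine ⟨K, hK, fun u hu => ?_⟩
  obtain ⟨h1, -, h2⟩ := hD univ (cj u) isOpen_univ (cj u).continuous.continuousOn (locFin u)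
    (fun x r hr _ z hz => vol_bound hu x r hr z hz)
  rw [Measure.restrict_univ] at h1 h2
  filter_upwards [ae_cj h1, ae_cj h2] with z hz1 hz2
  have h3 := fderiv_cj u z hz1
  refine ⟨h3.differentiableAt, ?_⟩
  rw [h3.fderiv, det_cj]
  exact (pow_le_pow_left₀ (norm_nonneg _) (norm_cj _) 2).trans hz2

theorem t_SGN : Pool.Agent.Y320.ST.S_SGN := by
  intro H u hu
  obtain ⟨K, hK, hD⟩ := partD' (n := 2) le_rfl (CC H)
  obtain ⟨h1, hw, h2⟩ := hD univ (cj u) isOpen_univ (cj u).continuous.continuousOn (locFin u)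
    (fun x r hr _ z hz => vol_bound hu x r hr z hz)
  have h3 := Pool.Agent.Helper171.NHME.partE (n := 2) two_pos univ (cj u)
    (fun x => fderiv ℝ (cj u) x) K isOpen_univ isPreconnected_univ
    (cj u).continuous.continuousOn (openMap u) (locFin u) hw h2
  rw [Measure.restrict_univ] at h1 h3
  rcases h3 with h3 | h3
  · left
    filter_upwards [ae_cj h1, ae_cj h3] with z hz1 hz2
    rw [(fderiv_cj u z hz1).fderiv, det_cj]
    exact hz2
  · right
    filter_upwards [ae_cj h1, ae_cj h3] with z hz1 hz2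
    rw [(fderiv_cj u z hz1).fderiv, det_cj]
    exact hz2

end Pool.Agent.Y914.ST
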